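import Mathlib

set_option autoImplicit false

/-!
# Asymptotic lower and upper bounds against `R log R`
-/

namespace Pool.Agent.W190.BH

open Filter Topology

/-- Asymptotic lower bound `F R ≥ (a - ε) R log R`. -/
def LB (F : ℝ → ℝ) (a : ℝ) : Prop :=
  ∀ ε : ℝ, 0 < ε → ∀ᶠ R : ℝ in atTop, (a - ε) * (R * Real.log R) ≤ F R

/-- Asymptotic upper bound `F R ≤ (a + ε) R log R`. -/
def UB (F : ℝ → ℝ) (a : ℝ) : Prop :=
  ∀ ε : ℝ, 0 < ε → ∀ᶠ R : ℝ in atTop, F R ≤ (a + ε) * (R * Real.log R)

theorem tendsto_scale (q : ℝ) (hq : 0 < q) :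
    Tendsto (fun R : ℝ => ((R / q) * Real.log (R / q)) / (R * Real.log R)) atTop (𝓝 (1 / q)) := by
  have h1 : Tendsto (fun R : ℝ => (1 / q) * (1 - Real.log q * (Real.log R)⁻¹)) atTop
      (𝓝 ((1 / q) * (1 - Real.log q * 0))) :=
    ((tendsto_inv_atTop_zero.comp Real.tendsto_log_atTop).const_mul (Real.log q)).const_sub 1
      |>.const_mul (1 / q)
  rw [mul_zero, sub_zero, mul_one] at h1
  refine h1.congr' ?_
  filter_upwards [eventually_gt_atTop (1 : ℝ)] with R hR
  have hR0 : 0 < R := by linarith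
  have hl : 0 < Real.log R := Real.log_pos hR
  rw [Real.log_div hR0.ne' hq.ne']
  field_simp

theorem tendsto_div_atTop (q : ℝ) (hq : 0 < q) : Tendsto (fun R : ℝ => R / q) atTop atTop :=
  tendsto_id.atTop_div_const hq

/-- The recursion step. -/
theorem LB_step {F F1 H : ℝ → ℝ} {q h a : ℝ} (hq : 1 < q)
    (hrec : ∀ᶠ R : ℝ in atTop, H (R / q) + F (R / q) ≤ F1 R) (hH : LB H h) (hF : LB F a) :
    LB F1 ((h + a) / q) := by
  intro ε hε
  have hq0 : 0 < q := by linarith
  have e1 := (tendsto_div_atTop q hq0).eventually (hH (ε * q / 4) (by positivity))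
  have e2 := (tendsto_div_atTop q hq0).eventually (hF (ε * q / 4) (by positivity))
  have h3 : Tendsto (fun R : ℝ => (h + a - ε * q / 2) *
      (((R / q) * Real.log (R / q)) / (R * Real.log R))) atTop
      (𝓝 ((h + a - ε * q / 2) * (1 / q))) := (tendsto_scale q hq0).const_mul _
  have h4 : (h + a) / q - ε < (h + a - ε * q / 2) * (1 / q) := by
    have : (h + a - ε * q / 2) * (1 / q) = (h + a) / q - ε / 2 := by field_simp
    rw [this]; linarith
  have e3 := h3.eventually_const_lt h4
  filter_upwards [e1, e2, e3, hrec, eventually_gt_atTop (1 : ℝ)] with R a1 a2 a3 a4 hR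
  have hl : 0 < Real.log R := Real.log_pos hR
  have hRl : 0 < R * Real.log R := by positivity
  have h5 : ((h + a) / q - ε) * (R * Real.log R) ≤
      (h + a - ε * q / 2) * ((R / q) * Real.log (R / q)) := by
    calc ((h + a) / q - ε) * (R * Real.log R)
        ≤ ((h + a - ε * q / 2) * (((R / q) * Real.log (R / q)) / (R * Real.log R))) *
          (R * Real.log R) := by gcongr
      _ = _ := by field_simp
  have h6 : (h + a - ε * q / 2) * ((R / q) * Real.log (R / q)) =
      (h - ε * q / 4) * ((R / q) * Real.log (R / q)) +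
      (a - ε * q / 4) * ((R / q) * Real.log (R / q)) := by ring
  linarith

theorem LB_limit {F : ℝ → ℝ} {a : ℝ} (h : ∀ b : ℝ, b < a → LB F b) : LB F a := by
  intro ε hε
  have h1 := h (a - ε / 2) (by linarith) (ε / 2) (by linarith)
  filter_upwards [h1] with R hR
  have : a - ε / 2 - ε / 2 = a - ε := by ring
  rwa [this] at hR

theorem LB_mono {F : ℝ → ℝ} {a b : ℝ} (h : LB F a) (hb : b ≤ a) : LB F b := by
  intro ε hε
  filter_upwards [h ε hε, eventually_gt_atTop (1 : ℝ)] with R hR h1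
  have hl : 0 < Real.log R := Real.log_pos h1
  have hRl : 0 < R * Real.log R := by positivity
  nlinarith

theorem LB_zero {F : ℝ → ℝ} (h : ∀ᶠ R : ℝ in atTop, 0 ≤ F R) : LB F 0 := by
  intro ε hε
  filter_upwards [h, eventually_gt_atTop (1 : ℝ)] with R hR h1
  have hl : 0 < Real.log R := Real.log_pos h1
  have hRl : 0 < R * Real.log R := by positivity
  nlinarith

/-- The recursion lemma. -/
theorem LB_rec {F H : ℝ → ℝ} {q h : ℝ} (hq : 1 < q) (hF : ∀ᶠ R : ℝ in atTop, 0 ≤ F R)
    (hrec : ∀ᶠ R : ℝ in atTop, H (R / q) + F (R / q) ≤ F R) (hH : LB H h) :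
    LB F (h / (q - 1)) := by
  have hq0 : 0 < q := by linarith
  have hq1 : 0 < q - 1 := by linarith
  have key : ∀ J : ℕ, LB F (h / (q - 1) * (1 - (1 / q) ^ J)) := by
    intro J
    induction J with
    | zero => simpa using LB_zero hF
    | succ J ih =>
      have := LB_step hq hrec hH ih
      have e : (h + h / (q - 1) * (1 - (1 / q) ^ J)) / q = h / (q - 1) * (1 - (1 / q) ^ (J + 1)) := by
        rw [pow_succ]
        field_simp
        ring
      rwa [e] at this
  apply LB_limit
  intro b hb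
  have ht : Tendsto (fun J : ℕ => h / (q - 1) * (1 - (1 / q) ^ J)) atTop
      (𝓝 (h / (q - 1) * (1 - 0))) :=
    ((tendsto_pow_atTop_nhds_zero_of_lt_one (by positivity)
      (by rw [div_lt_one hq0]; exact hq)).const_sub 1).const_mul _
  rw [sub_zero, mul_one] at ht
  obtain ⟨J, hJ⟩ := (ht.eventually_const_lt hb).exists
  exact LB_mono (key J) hJ.le

theorem tendsto_log_ratio : Tendsto (fun q : ℝ => Real.log q / (q - 1)) (𝓝[>] 1) (𝓝 1) := by
  have h := (Real.hasDerivAt_log (x := 1) one_ne_zero).tendsto_slope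
  have h2 : Tendsto (slope Real.log 1) (𝓝[>] 1) (𝓝 (1⁻¹)) :=
    h.mono_left (nhdsWithin_mono _ (fun x hx => ne_of_gt hx))
  rw [inv_one] at h2
  refine h2.congr (fun q => ?_)
  rw [slope_def_field]
  simp

/-- Lower bound for `S` from the lower bound for `n`. -/
theorem LB_S {S n : ℝ → ℝ} {a : ℝ} (ha : 0 ≤ a) (hS0 : ∀ᶠ R : ℝ in atTop, 0 ≤ S R)
    (hrec : ∀ q : ℝ, 1 < q → ∀ᶠ R : ℝ in atTop, Real.log q * n R + S R ≤ S (q * R))
    (hn : LB n a) : LB S a := by
  have key : ∀ q : ℝ, 1 < q → LB S (Real.log q * a / (q - 1)) := by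
    intro q hq
    have hq0 : 0 < q := by linarith
    have hlq : 0 < Real.log q := Real.log_pos hq
    refine LB_rec (H := fun R => Real.log q * n R) hq hS0 ?_ ?_
    · filter_upwards [(tendsto_div_atTop q hq0).eventually (hrec q hq)] with R hR
      rwa [mul_div_cancel₀ _ hq0.ne'] at hR
    · intro ε hε
      filter_upwards [hn (ε / Real.log q) (by positivity)] with R hR
      have := mul_le_mul_of_nonneg_left hR hlq.le
      calc (Real.log q * a - ε) * (R * Real.log R)
          = Real.log q * ((a - ε / Real.log q) * (R * Real.log R)) := by field_simp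
        _ ≤ _ := this
  apply LB_limit
  intro b hb
  have ht : Tendsto (fun q : ℝ => Real.log q / (q - 1) * a) (𝓝[>] 1) (𝓝 (1 * a)) :=
    tendsto_log_ratio.mul_const a
  rw [one_mul] at ht
  obtain ⟨q, hq1, hq2⟩ := ((ht.eventually_const_lt hb).and self_mem_nhdsWithin).exists
  refine LB_mono (key q hq2) ?_
  rw [mul_div_right_comm]
  exact hq1.le

/-- Upper bound for `n`. -/
theorem UB_n {S n : ℝ → ℝ} {a : ℝ} (ha : 0 ≤ a)
    (hrec : ∀ q : ℝ, 1 < q → ∀ᶠ R : ℝ in atTop, Real.log q * n R + S R ≤ S (q * R))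
    (hL : LB S a) (hU : UB S a) : UB n a := by
  intro ε hε
  -- choose q
  have ht : Tendsto (fun q : ℝ => a * (Real.log q / (q - 1))⁻¹) (𝓝[>] 1) (𝓝 (a * 1⁻¹)) :=
    (tendsto_log_ratio.inv₀ one_ne_zero).const_mul a
  rw [inv_one, mul_one] at ht
  have hε2 : a < a + ε / 2 := by linarith
  obtain ⟨q, hq1, hq2⟩ := ((ht.eventually_lt_const hε2).and self_mem_nhdsWithin).exists
  have hq : 1 < q := hq2
  have hq0 : 0 < q := by linarith
  have hqq : 0 < q⁻¹ := by positivity
  have hlq : 0 < Real.log q := Real.log_pos hq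
  set δ : ℝ := ε * Real.log q / (8 * (q + 1)) with hδ
  have hδ0 : 0 < δ := by positivity
  have hsc := tendsto_scale q⁻¹ hqq
  have e0 : (1 : ℝ) / q⁻¹ = q := by simp
  rw [e0] at hsc
  have h3 : Tendsto (fun R : ℝ => (a + δ) *
      (((R / q⁻¹) * Real.log (R / q⁻¹)) / (R * Real.log R))) atTop (𝓝 ((a + δ) * q)) :=
    hsc.const_mul _
  have h4 : (a + δ) * q < (a + δ) * q + δ := by linarith
  have e3 := h3.eventually_lt_const h4
  have hdiv : Tendsto (fun R : ℝ => q * R) atTop atTop := tendsto_id.const_mul_atTop hq0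
  have e4 := hdiv.eventually (hU δ hδ0)
  filter_upwards [hrec q hq, hL δ hδ0, e3, e4, eventually_gt_atTop (1 : ℝ)] with R r1 r2 r3 r4 hR
  have hl : 0 < Real.log R := Real.log_pos hR
  have hRl : 0 < R * Real.log R := by positivity
  have e5 : R / q⁻¹ = q * R := by rw [div_inv_eq_mul, mul_comm]
  rw [e5] at r3
  have r5 : (a + δ) * (q * R * Real.log (q * R)) ≤ ((a + δ) * q + δ) * (R * Real.log R) := by
    calc (a + δ) * (q * R * Real.log (q * R))
        = ((a + δ) * (q * R * Real.log (q * R) / (R * Real.log R))) * (R * Real.log R) := by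
          field_simp
      _ ≤ _ := by gcongr
  have r6 : Real.log q * n R ≤ ((a + δ) * q + δ - (a - δ)) * (R * Real.log R) := by
    have : ((a + δ) * q + δ - (a - δ)) * (R * Real.log R) =
      ((a + δ) * q + δ) * (R * Real.log R) - (a - δ) * (R * Real.log R) := by ring
    rw [this]; linarith
  have r7 : (a + δ) * q + δ - (a - δ) ≤ Real.log q * (a + ε) := by
    have h8 : a * (q - 1) ≤ (a + ε / 2) * Real.log q := by
      have hq1' : a * (Real.log q / (q - 1))⁻¹ ≤ a + ε / 2 := hq1.le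
      rw [inv_div] at hq1'
      calc a * (q - 1) = (a * ((q - 1) / Real.log q)) * Real.log q := by field_simp
        _ ≤ _ := by gcongr
    have h9 : δ * (q + 2) ≤ ε / 2 * Real.log q := by
      rw [hδ, div_mul_eq_mul_div, div_le_iff₀ (by positivity)]
      have : 0 < ε * Real.log q := by positivity
      nlinarith
    nlinarith
  have r8 : Real.log q * n R ≤ Real.log q * ((a + ε) * (R * Real.log R)) := by
    calc Real.log q * n R ≤ ((a + δ) * q + δ - (a - δ)) * (R * Real.log R) := r6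
      _ ≤ (Real.log q * (a + ε)) * (R * Real.log R) := by gcongr
      _ = _ := by ring
  exact le_of_mul_le_mul_left r8 hlq

theorem LB_of_tendsto {n : ℝ → ℝ} {a : ℝ}
    (h : Tendsto (fun R : ℝ => n R / (R * Real.log R)) atTop (𝓝 a)) : LB n a := by
  intro ε hε
  filter_upwards [h.eventually_const_lt (show a - ε < a by linarith),
    eventually_gt_atTop (1 : ℝ)] with R h1 hR
  have hl : 0 < Real.log R := Real.log_pos hR
  have hRl : 0 < R * Real.log R := by positivity
  rw [lt_div_iff₀ hRl] at h1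
  exact h1.le

theorem LB_scale {F F1 : ℝ → ℝ} {a : ℝ} (h : LB F a)
    (h1 : ∀ q : ℝ, 1 < q → ∀ᶠ R : ℝ in atTop, F (R / q) ≤ F1 R) : LB F1 a := by
  apply LB_limit
  intro b hb
  have hz : LB (fun _ : ℝ => (0 : ℝ)) 0 := LB_zero (by simp)
  have ht : Tendsto (fun q : ℝ => (0 + a) / q) (𝓝[>] 1) (𝓝 ((0 + a) / 1)) :=
    (tendsto_const_nhds.div tendsto_id one_ne_zero).mono_left nhdsWithin_le_nhds
  have hb' : b < (0 + a) / 1 := by simpa using hb
  obtain ⟨q, hq1, hq2⟩ := ((ht.eventually_const_lt hb').and self_mem_nhdsWithin).exists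
  have := LB_step (F := F) (F1 := F1) (H := fun _ => 0) hq2 (by simpa using h1 q hq2) hz h
  exact LB_mono this hq1.le

theorem tendsto_of_LB_UB {n : ℝ → ℝ} {a : ℝ} (hL : LB n a) (hU : UB n a) :
    Tendsto (fun R : ℝ => n R / (R * Real.log R)) atTop (𝓝 a) := by
  rw [Metric.tendsto_nhds]
  intro ε hε
  filter_upwards [hL (ε / 2) (by linarith), hU (ε / 2) (by linarith),
    eventually_gt_atTop (1 : ℝ)] with R h1 h2 hR
  have hl : 0 < Real.log R := Real.log_pos hR
  have hRl : 0 < R * Real.log R := by positivity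
  rw [Real.dist_eq, abs_lt]
  constructor
  · have : a - ε / 2 ≤ n R / (R * Real.log R) := by rwa [le_div_iff₀ hRl]
    linarith
  · have : n R / (R * Real.log R) ≤ a + ε / 2 := by rwa [div_le_iff₀ hRl]
    linarith

end Pool.Agent.W190.BH
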