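import Mathlib
import Pool.Agent.W475.BH.Stm
import Pool.Agent.W190.BH.Asy

set_option autoImplicit false

/-!
# Task TOT of project BH
-/

namespace Pool.Agent.W190.BH

open Complex MeasureTheory Filter Topology Pool.Agent.W475.BH Metric

section

variable {f : ℂ → ℂ}

theorem order_ne_top (hf : Differentiable ℂ f) (h0 : f 0 ≠ 0) (z : ℂ) :
    analyticOrderAt f z ≠ ⊤ := by
  have hA : AnalyticOnNhd ℂ f Set.univ := fun x _ => hf.analyticAt x
  intro htop
  rw [analyticOrderAt_eq_top] at htop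
  have := hA.eqOn_zero_of_preconnected_of_eventuallyEq_zero isPreconnected_univ
    (Set.mem_univ z) htop
  exact h0 (this (Set.mem_univ 0))

theorem divisor_eq (hf : Differentiable ℂ f) (R : ℝ) {z : ℂ}
    (hz : z ∈ closedBall (0 : ℂ) R) :
    MeromorphicOn.divisor f (closedBall 0 R) z = (analyticOrderNatAt f z : ℤ) := by
  have hA : AnalyticOnNhd ℂ f (closedBall 0 R) := fun x _ => hf.analyticAt x
  rw [MeromorphicOn.AnalyticOnNhd.divisor_apply hA hz]
  unfold analyticOrderNatAt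
  cases h : analyticOrderAt f z with
  | top => simp
  | coe a => simp

theorem zeros_finite (hf : Differentiable ℂ f) (R : ℝ) :
    {z : ℂ | ‖z‖ ≤ R ∧ analyticOrderNatAt f z ≠ 0}.Finite := by
  refine ((MeromorphicOn.divisor f (closedBall 0 R)).finiteSupport
    (isCompact_closedBall 0 R)).subset ?_
  rintro z ⟨hz, hz2⟩
  rw [Function.mem_support, divisor_eq hf R (by simpa using hz)]
  exact_mod_cast hz2

/-- The zeros in the disc. -/
noncomputable def Z (hf : Differentiable ℂ f) (R : ℝ) : Finset ℂ := (zeros_finite hf R).toFinset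

theorem mem_Z (hf : Differentiable ℂ f) (R : ℝ) (z : ℂ) :
    z ∈ Z hf R ↔ ‖z‖ ≤ R ∧ analyticOrderNatAt f z ≠ 0 := by
  simp [Z]

open Classical in
theorem nz_eq (hf : Differentiable ℂ f) (R : ℝ) (A : Set ℂ) (hA : ∀ z ∈ A, ‖z‖ ≤ R) :
    nz f A = ∑ z ∈ (Z hf R).filter (· ∈ A), analyticOrderNatAt f z := by
  unfold nz
  apply finsum_mem_eq_sum_of_inter_support_eq
  ext z
  simp only [Set.mem_inter_iff, Function.mem_support, Finset.coe_filter, Set.mem_ofPred_eq, mem_Z]
  constructor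
  · rintro ⟨h1, h2⟩
    exact ⟨⟨⟨hA z h1, h2⟩, h1⟩, h2⟩
  · rintro ⟨⟨⟨_, h2⟩, h1⟩, _⟩
    exact ⟨h1, h2⟩

theorem nz_mono (hf : Differentiable ℂ f) (R : ℝ) {A B : Set ℂ} (hB : ∀ z ∈ B, ‖z‖ ≤ R)
    (hAB : A ⊆ B) : nz f A ≤ nz f B := by
  classical
  rw [nz_eq hf R A (fun z hz => hB z (hAB hz)), nz_eq hf R B hB]
  apply Finset.sum_le_sum_of_subset
  intro z hz
  rw [Finset.mem_filter] at hz ⊢
  exact ⟨hz.1, hAB hz.2⟩

theorem nz_union (hf : Differentiable ℂ f) (R : ℝ) {A B : Set ℂ} (hA : ∀ z ∈ A, ‖z‖ ≤ R)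
    (hB : ∀ z ∈ B, ‖z‖ ≤ R) (hAB : Disjoint A B) : nz f (A ∪ B) = nz f A + nz f B := by
  classical
  rw [nz_eq hf R A hA, nz_eq hf R B hB, nz_eq hf R (A ∪ B) (by
    rintro z (hz | hz)
    · exact hA z hz
    · exact hB z hz), ← Finset.sum_union]
  · congr 1
    ext z
    simp only [Finset.mem_filter, Finset.mem_union, Set.mem_union]
    tauto
  · rw [Finset.disjoint_left]
    intro z h1 h2
    rw [Finset.mem_filter] at h1 h2
    exact Set.disjoint_left.1 hAB h1.2 h2.2

theorem order_neg (hf : ∀ z, f (-z) = f z) (z : ℂ) :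
    analyticOrderNatAt f (-z) = analyticOrderNatAt f z := by
  unfold analyticOrderNatAt
  have h1 : f ∘ (fun z : ℂ => -z) = f := by
    ext z; simp [hf]
  have h2 : analyticOrderAt (f ∘ (fun z : ℂ => -z)) z = analyticOrderAt f (-z) := by
    apply analyticOrderAt_comp_of_deriv_ne_zero (g := fun z : ℂ => -z)
    · exact analyticAt_id.neg
    · have : HasDerivAt (fun z : ℂ => -z) (-1) z := (hasDerivAt_id z).neg
      rw [this.deriv]
      norm_num
  rw [← h2, h1]

theorem nz_neg (hf : ∀ z, f (-z) = f z) (A : Set ℂ) : nz f {z | -z ∈ A} = nz f A := by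
  unfold nz
  rw [← finsum_comp_equiv (Equiv.neg ℂ)]
  apply finsum_congr
  intro z
  simp [order_neg hf]

/-- The counting function. -/
noncomputable def nn (hf : Differentiable ℂ f) (R : ℝ) : ℝ :=
  ∑ z ∈ Z hf R, (analyticOrderNatAt f z : ℝ)

/-- The logarithmic counting function. -/
noncomputable def SSS (hf : Differentiable ℂ f) (R : ℝ) : ℝ :=
  ∑ z ∈ Z hf R, (analyticOrderNatAt f z : ℝ) * Real.log (R * ‖z‖⁻¹)

theorem nn_eq (hf : Differentiable ℂ f) (R : ℝ) : (nz f {z | ‖z‖ ≤ R} : ℝ) = nn hf R := by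
  classical
  rw [nz_eq hf R {z | ‖z‖ ≤ R} (fun z hz => hz), nn]
  push_cast
  rw [Finset.filter_true_of_mem]
  intro z hz
  exact ((mem_Z hf R z).1 hz).1

theorem Z_ne_zero (hf : Differentiable ℂ f) (h0 : f 0 ≠ 0) {R : ℝ} {z : ℂ} (hz : z ∈ Z hf R) :
    0 < ‖z‖ := by
  rw [norm_pos_iff]
  rintro rfl
  have := ((mem_Z hf R 0).1 hz).2
  exact h0 (apply_eq_zero_of_analyticOrderNatAt_ne_zero this)

theorem SSS_nonneg (hf : Differentiable ℂ f) (h0 : f 0 ≠ 0) (R : ℝ) : 0 ≤ SSS hf R := by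
  unfold SSS
  apply Finset.sum_nonneg
  intro z hz
  have h1 := Z_ne_zero hf h0 hz
  have h2 := ((mem_Z hf R z).1 hz).1
  have : 1 ≤ R * ‖z‖⁻¹ := by
    rw [← div_eq_mul_inv, le_div_iff₀ h1]; linarith
  have := Real.log_nonneg this
  positivity

theorem nn_nonneg (hf : Differentiable ℂ f) (R : ℝ) : 0 ≤ nn hf R := by
  unfold nn; positivity

theorem SSS_rec (hf : Differentiable ℂ f) (h0 : f 0 ≠ 0) {q R : ℝ} (hq : 1 < q) (hR : 0 < R) :
    Real.log q * nn hf R + SSS hf R ≤ SSS hf (q * R) := by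
  have hsub : Z hf R ⊆ Z hf (q * R) := by
    intro z hz
    rw [mem_Z] at hz ⊢
    refine ⟨hz.1.trans ?_, hz.2⟩
    nlinarith
  have h1 : ∑ z ∈ Z hf R, (analyticOrderNatAt f z : ℝ) * Real.log (q * R * ‖z‖⁻¹) ≤
      SSS hf (q * R) := by
    unfold SSS
    apply Finset.sum_le_sum_of_subset_of_nonneg hsub
    intro z hz _
    have h1 := Z_ne_zero hf h0 hz
    have h2 := ((mem_Z hf _ z).1 hz).1
    have : 1 ≤ q * R * ‖z‖⁻¹ := by
      rw [← div_eq_mul_inv, le_div_iff₀ h1]; linarith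
    have := Real.log_nonneg this
    positivity
  refine le_trans (le_of_eq ?_) h1
  unfold nn SSS
  rw [Finset.mul_sum, ← Finset.sum_add_distrib]
  apply Finset.sum_congr rfl
  intro z hz
  have h1 := Z_ne_zero hf h0 hz
  have : q * R * ‖z‖⁻¹ = q * (R * ‖z‖⁻¹) := by ring
  rw [this, Real.log_mul (x := q) (by linarith) (by positivity)]
  ring

theorem jensen (hf : Differentiable ℂ f) (h0 : f 0 ≠ 0) {R : ℝ} (hR : 0 < R) :
    Real.circleAverage (fun z => Real.log ‖f z‖) 0 R = SSS hf R + Real.log ‖f 0‖ := by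
  have hA : AnalyticOnNhd ℂ f (closedBall 0 |R|) := fun x _ => hf.analyticAt x
  rw [hA.circleAverage_log_norm hR.ne' h0, abs_of_pos hR]
  congr 1
  unfold SSS
  rw [finsum_eq_sum_of_support_subset (s := Z hf R)]
  · apply Finset.sum_congr rfl
    intro z hz
    have h2 := ((mem_Z hf _ z).1 hz).1
    rw [divisor_eq hf R (by simpa using h2)]
    simp
  · intro z hz
    rw [Function.mem_support] at hz
    have hz1 : MeromorphicOn.divisor f (closedBall 0 R) z ≠ 0 := by
      intro h; apply hz; rw [h]; simp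
    have hzb : z ∈ closedBall (0 : ℂ) R := by
      by_contra h
      exact hz1 (Function.locallyFinsuppWithin.apply_eq_zero_of_notMem _ h)
    rw [divisor_eq hf R hzb] at hz1
    rw [Finset.mem_coe, mem_Z]
    exact ⟨by simpa using hzb, by exact_mod_cast hz1⟩

theorem integral_abs_cos : ∫ x in (0 : ℝ)..(2 * Real.pi), |Real.cos x| = 4 := by
  have hc : ∀ a b : ℝ, IntervalIntegrable (fun x => |Real.cos x|) volume a b := fun a b =>
    (Real.continuous_cos.abs).intervalIntegrable a b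
  have hpi := Real.pi_pos
  rw [← intervalIntegral.integral_add_adjacent_intervals (hc 0 (Real.pi / 2))
    (hc (Real.pi / 2) (2 * Real.pi)),
    ← intervalIntegral.integral_add_adjacent_intervals (hc (Real.pi / 2) (3 * Real.pi / 2))
    (hc (3 * Real.pi / 2) (2 * Real.pi))]
  have e1 : ∫ x in (0 : ℝ)..(Real.pi / 2), |Real.cos x| = 1 := by
    rw [intervalIntegral.integral_congr (g := Real.cos), integral_cos]
    · simp
    · intro x hx
      rw [Set.uIcc_of_le (by positivity)] at hx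
      exact abs_of_nonneg (Real.cos_nonneg_of_mem_Icc ⟨by linarith [hx.1], hx.2⟩)
  have e2 : ∫ x in (Real.pi / 2)..(3 * Real.pi / 2), |Real.cos x| = 2 := by
    rw [intervalIntegral.integral_congr (g := fun x => -Real.cos x),
      intervalIntegral.integral_neg, integral_cos]
    · have : 3 * Real.pi / 2 = Real.pi / 2 + Real.pi := by ring
      rw [this, Real.sin_add_pi]
      simp
      norm_num
    · intro x hx
      rw [Set.uIcc_of_le (by linarith)] at hx
      exact abs_of_nonpos (Real.cos_nonpos_of_pi_div_two_le_of_le hx.1 (by linarith [hx.2]))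
  have e3 : ∫ x in (3 * Real.pi / 2)..(2 * Real.pi), |Real.cos x| = 1 := by
    rw [intervalIntegral.integral_congr (g := Real.cos), integral_cos]
    · have : 3 * Real.pi / 2 = Real.pi / 2 + Real.pi := by ring
      rw [this, Real.sin_add_pi]
      simp
    · intro x hx
      rw [Set.uIcc_of_le (by linarith)] at hx
      apply abs_of_nonneg
      have : Real.cos x = Real.cos (x - 2 * Real.pi) := by rw [Real.cos_sub_two_pi]
      rw [this]
      exact Real.cos_nonneg_of_mem_Icc ⟨by linarith [hx.1], by linarith [hx.2]⟩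
  rw [e1, e2, e3]
  norm_num

theorem circle_bound (hf : Differentiable ℂ f) {C : ℝ} (hC : 0 < C)
    (hb : ∀ z : ℂ, ‖f z‖ ≤ Real.exp (|z.re| / 2 * Real.log (2 + ‖z‖) + C * (1 + ‖z‖))) {R : ℝ}
    (hR : 0 < R) :
    Real.circleAverage (fun z => Real.log ‖f z‖) 0 R ≤
      R / Real.pi * Real.log (2 + R) + C * (1 + R) := by
  have hpos : ∀ z : ℂ, 0 ≤ |z.re| / 2 * Real.log (2 + ‖z‖) + C * (1 + ‖z‖) := by
    intro z
    have : 0 ≤ Real.log (2 + ‖z‖) := Real.log_nonneg (by linarith [norm_nonneg z])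
    positivity
  have h1 : CircleIntegrable (fun z => Real.log ‖f z‖) 0 R := by
    have hA : AnalyticOnNhd ℂ f (sphere 0 |R|) := fun x _ => hf.analyticAt x
    exact hA.meromorphicOn.circleIntegrable_log_norm
  have hcont : Continuous (fun z : ℂ => |z.re| / 2 * Real.log (2 + ‖z‖) + C * (1 + ‖z‖)) := by
    refine Continuous.add (Continuous.mul (by fun_prop) (Continuous.log (by fun_prop) ?_))
      (by fun_prop)
    intro z
    have := norm_nonneg z
    linarith
  have h2 : CircleIntegrable (fun z : ℂ => |z.re| / 2 * Real.log (2 + ‖z‖) + C * (1 + ‖z‖)) 0 R :=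
    hcont.continuousOn.circleIntegrable hR.le
  refine (Real.circleAverage_mono h1 h2 ?_).trans ?_
  · intro z _
    by_cases hz : f z = 0
    · simp only [hz, norm_zero, Real.log_zero]
      exact hpos z
    · rw [Real.log_le_iff_le_exp (norm_pos_iff.2 hz)]
      exact hb z
  · rw [Real.circleAverage_def]
    have hint : ∫ θ in (0 : ℝ)..(2 * Real.pi), (fun z : ℂ => |z.re| / 2 * Real.log (2 + ‖z‖) +
        C * (1 + ‖z‖)) (circleMap 0 R θ) = ∫ θ in (0 : ℝ)..(2 * Real.pi),
        (R / 2 * Real.log (2 + R) * |Real.cos θ| + C * (1 + R)) := by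
      apply intervalIntegral.integral_congr
      intro θ _
      have hn : ‖circleMap 0 R θ‖ = R := by
        rw [norm_circleMap_zero, abs_of_pos hR]
      have hre : (circleMap 0 R θ).re = R * Real.cos θ := by
        rw [circleMap_zero]
        simp [Complex.exp_re]
      simp only [hn, hre, abs_mul, abs_of_pos hR]
      ring
    rw [hint, intervalIntegral.integral_add, intervalIntegral.integral_const_mul, integral_abs_cos,
      intervalIntegral.integral_const, smul_eq_mul, smul_eq_mul]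
    · have hpi := Real.pi_pos
      apply le_of_eq
      field_simp
      ring
    · exact ((Real.continuous_cos.abs).const_mul _).intervalIntegrable _ _
    · exact continuous_const.intervalIntegrable _ _

theorem UB_SSS (hf : Differentiable ℂ f) (h0 : f 0 ≠ 0) {C : ℝ} (hC : 0 < C)
    (hb : ∀ z : ℂ, ‖f z‖ ≤ Real.exp (|z.re| / 2 * Real.log (2 + ‖z‖) + C * (1 + ‖z‖))) :
    UB (SSS hf) (1 / Real.pi) := by
  intro ε hε
  set c : ℝ := |Real.log ‖f 0‖| with hc
  have hlog : Tendsto (fun R : ℝ => Real.log R) atTop atTop := Real.tendsto_log_atTop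
  filter_upwards [eventually_ge_atTop (1 : ℝ),
    hlog.eventually_ge_atTop ((2 * C + c + 1) / ε)] with R hR h1
  have hR0 : 0 < R := by linarith
  have hj := jensen hf h0 hR0
  have hcb := circle_bound hf hC hb hR0
  have h2 : Real.log (2 + R) ≤ Real.log R + 2 / R := by
    have : Real.log ((2 + R) / R) ≤ (2 + R) / R - 1 := Real.log_le_sub_one_of_pos (by positivity)
    rw [Real.log_div (by positivity) hR0.ne'] at this
    have e : (2 + R) / R - 1 = 2 / R := by field_simp; ring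
    linarith
  have hpi := Real.pi_gt_three
  have h3 : R / Real.pi * Real.log (2 + R) ≤ 1 / Real.pi * (R * Real.log R) + 1 := by
    calc R / Real.pi * Real.log (2 + R) ≤ R / Real.pi * (Real.log R + 2 / R) := by gcongr
      _ = 1 / Real.pi * (R * Real.log R) + 2 / Real.pi := by field_simp
      _ ≤ _ := by
        have : 2 / Real.pi ≤ 1 := by rw [div_le_one (by linarith)]; linarith
        linarith
  have h4 : (2 * C + c + 1) ≤ ε * Real.log R := by
    rw [div_le_iff₀ hε] at h1; linarith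
  have hc0 : 0 ≤ c := abs_nonneg _
  have h5 : C * (1 + R) + c + 1 ≤ ε * (R * Real.log R) := by
    calc C * (1 + R) + c + 1 ≤ (2 * C + c + 1) * R := by nlinarith
      _ ≤ (ε * Real.log R) * R := by gcongr
      _ = _ := by ring
  have h6 : -c ≤ Real.log ‖f 0‖ := neg_abs_le _
  have h7 : (1 / Real.pi + ε) * (R * Real.log R) = 1 / Real.pi * (R * Real.log R) +
    ε * (R * Real.log R) := by ring
  linarith

/-- The zeros in a flat box. -/
noncomputable def GB (f : ℂ → ℂ) (κ R : ℝ) : ℝ :=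
  (nz f {z | |z.re| ≤ κ * Real.log R ∧ |z.im| ≤ R} : ℝ)

/-- The zeros in a dyadic block. -/
noncomputable def BB (f : ℂ → ℂ) (κ T : ℝ) : ℝ :=
  (nz f {z | -κ * Real.log T ≤ z.re ∧ z.re ≤ κ * Real.log T ∧ T < z.im ∧ z.im ≤ 2 * T} : ℝ)

theorem GB_rec (hf : Differentiable ℂ f) (he : ∀ z, f (-z) = f z) {κ T : ℝ} (hκ : 0 < κ)
    (hT : 1 ≤ T) : 2 * BB f κ T + GB f κ T ≤ GB f κ (2 * T) := by
  have hlT : 0 ≤ Real.log T := Real.log_nonneg hT
  have hl2 : Real.log T ≤ Real.log (2 * T) := Real.log_le_log (by linarith) (by linarith)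
  have hbd : ∀ z ∈ {z : ℂ | |z.re| ≤ κ * Real.log (2 * T) ∧ |z.im| ≤ 2 * T},
      ‖z‖ ≤ κ * Real.log (2 * T) + 2 * T := by
    rintro z ⟨h1, h2⟩
    exact (Complex.norm_le_abs_re_add_abs_im z).trans (add_le_add h1 h2)
  set A1 : Set ℂ := {z | -κ * Real.log T ≤ z.re ∧ z.re ≤ κ * Real.log T ∧ T < z.im ∧
    z.im ≤ 2 * T} with hA1
  set A0 : Set ℂ := {z | |z.re| ≤ κ * Real.log T ∧ |z.im| ≤ T} with hA0
  have hκl : κ * Real.log T ≤ κ * Real.log (2 * T) := by gcongr
  have s1 : A1 ⊆ {z : ℂ | |z.re| ≤ κ * Real.log (2 * T) ∧ |z.im| ≤ 2 * T} := by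
    rintro z ⟨a1, a2, a3, a4⟩
    refine ⟨?_, ?_⟩
    · rw [abs_le]; constructor <;> linarith
    · rw [abs_le]; constructor <;> linarith
  have s2 : {z | -z ∈ A1} ⊆ {z : ℂ | |z.re| ≤ κ * Real.log (2 * T) ∧ |z.im| ≤ 2 * T} := by
    rintro z ⟨a1, a2, a3, a4⟩
    rw [Complex.neg_re] at a1 a2
    rw [Complex.neg_im] at a3 a4
    refine ⟨?_, ?_⟩
    · rw [abs_le]; constructor <;> linarith
    · rw [abs_le]; constructor <;> linarith
  have s0 : A0 ⊆ {z : ℂ | |z.re| ≤ κ * Real.log (2 * T) ∧ |z.im| ≤ 2 * T} := by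
    rintro z ⟨a1, a2⟩
    exact ⟨a1.trans hκl, a2.trans (by linarith)⟩
  have d12 : Disjoint A1 {z | -z ∈ A1} := by
    rw [Set.disjoint_left]
    rintro z ⟨_, _, a3, _⟩ ⟨_, _, b3, _⟩
    rw [Complex.neg_im] at b3
    linarith
  have d0 : Disjoint (A1 ∪ {z | -z ∈ A1}) A0 := by
    rw [Set.disjoint_left]
    rintro z (⟨_, _, a3, _⟩ | ⟨_, _, b3, _⟩) ⟨_, c2⟩
    · rw [abs_le] at c2; linarith
    · rw [Complex.neg_im] at b3
      rw [abs_le] at c2; linarith
  have hu1 := nz_union hf _ (fun z hz => hbd z (s1 hz)) (fun z hz => hbd z (s2 hz)) d12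
  have hu2 := nz_union hf (κ * Real.log (2 * T) + 2 * T) (A := A1 ∪ {z | -z ∈ A1}) (B := A0) (by
    rintro z (hz | hz)
    · exact hbd z (s1 hz)
    · exact hbd z (s2 hz)) (fun z hz => hbd z (s0 hz)) d0
  have hm := nz_mono hf _ hbd (A := (A1 ∪ {z | -z ∈ A1}) ∪ A0)
    (Set.union_subset (Set.union_subset s1 s2) s0)
  rw [hu2, hu1, nz_neg he] at hm
  have hm2 : ((nz f A1 + nz f A1 + nz f A0 : ℕ) : ℝ) ≤ GB f κ (2 * T) := by
    unfold GB; exact_mod_cast hm
  push_cast at hm2
  have e1 : BB f κ T = (nz f A1 : ℝ) := rfl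
  have e2 : GB f κ T = (nz f A0 : ℝ) := rfl
  rw [e1, e2]
  linarith

theorem LB_GB (hf : Differentiable ℂ f) (he : ∀ z, f (-z) = f z) {κ : ℝ} (hκ : 0 < κ)
    (hB : LB (BB f κ) (1 / (2 * Real.pi))) : LB (GB f κ) (1 / Real.pi) := by
  have hH : LB (fun T => 2 * BB f κ T) (1 / Real.pi) := by
    intro ε hε
    filter_upwards [hB (ε / 2) (by linarith)] with R hR
    have e : (1 / Real.pi - ε) * (R * Real.log R) =
      2 * ((1 / (2 * Real.pi) - ε / 2) * (R * Real.log R)) := by
      have := Real.pi_pos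
      field_simp
    rw [e]; linarith
  have := LB_rec (F := GB f κ) (H := fun T => 2 * BB f κ T) (q := 2) one_lt_two
    (Eventually.of_forall fun R => by unfold GB; positivity) ?_ hH
  · have e : (1 / Real.pi) / (2 - 1) = 1 / Real.pi := by norm_num
    rwa [e] at this
  · filter_upwards [eventually_ge_atTop (2 : ℝ)] with R hR
    have := GB_rec hf he hκ (T := R / 2) (by linarith)
    rwa [mul_div_cancel₀ _ (two_ne_zero)] at this

theorem LB_nn (hf : Differentiable ℂ f) {κ : ℝ} (hG : LB (GB f κ) (1 / Real.pi)) :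
    LB (nn hf) (1 / Real.pi) := by
  refine LB_scale hG ?_
  intro q hq
  have hq0 : 0 < q := by linarith
  have hqi : 0 < 1 - 1 / q := by
    have : 1 / q < 1 := by rw [div_lt_one hq0]; exact hq
    linarith
  have h1 : ∀ᶠ R : ℝ in atTop, |κ| * Real.log R ≤ (1 - 1 / q) * R := by
    have := (Real.isLittleO_log_id_atTop).const_mul_left |κ|
    have h2 := this.bound hqi
    filter_upwards [h2, eventually_ge_atTop (1 : ℝ)] with R h3 hR
    have h4 : |κ| * Real.log R ≤ ‖|κ| * Real.log R‖ := le_abs_self _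
    have h5 : ‖id R‖ = R := by simp [abs_of_nonneg (by linarith : (0:ℝ) ≤ R)]
    rw [h5] at h3
    linarith
  filter_upwards [h1, eventually_ge_atTop q] with R h2 hR
  have hR0 : 0 < R := by linarith
  rw [← nn_eq]
  unfold GB
  have hm := nz_mono hf R (A := {z | |z.re| ≤ κ * Real.log (R / q) ∧ |z.im| ≤ R / q})
    (B := {z | ‖z‖ ≤ R}) (fun z hz => hz) ?_
  · exact_mod_cast hm
  · rintro z ⟨a1, a2⟩
    have h3 : κ * Real.log (R / q) ≤ |κ| * Real.log R := by
      have hlq : 0 ≤ Real.log (R / q) := Real.log_nonneg (by rw [le_div_iff₀ hq0]; linarith)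
      calc κ * Real.log (R / q) ≤ |κ| * Real.log (R / q) := by
            gcongr; exact le_abs_self κ
        _ ≤ |κ| * Real.log R := by
          gcongr
          exact div_le_self hR0.le hq.le
    show ‖z‖ ≤ R
    calc ‖z‖ ≤ |z.re| + |z.im| := Complex.norm_le_abs_re_add_abs_im z
      _ ≤ κ * Real.log (R / q) + R / q := add_le_add a1 a2
      _ ≤ (1 - 1 / q) * R + R / q := by linarith
      _ = R := by field_simp; ring

end

/-- Task TOT. -/
theorem tot (h0 : S_SYM) (h1 : S_CNT) : S_TOT := by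
  intro κ hκ
  obtain ⟨hf, hne, he, -, C, hC, hb⟩ := h0 κ hκ
  have hB : LB (BB (XK κ) κ) (1 / (2 * Real.pi)) := by
    apply LB_of_tendsto
    have := h1 κ (-κ) κ hκ (by linarith) (by linarith) (by linarith)
    have e : ell κ (-κ) κ / (4 * Real.pi * κ) = 1 / (2 * Real.pi) := by
      unfold ell
      rw [min_self, max_self, max_eq_right (by linarith)]
      have := Real.pi_pos
      field_simp
      ring
    rwa [e] at this
  have hG := LB_GB hf he hκ hB
  have hn := LB_nn hf hG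
  have hrec : ∀ q : ℝ, 1 < q → ∀ᶠ R : ℝ in atTop,
      Real.log q * nn hf R + SSS hf R ≤ SSS hf (q * R) := by
    intro q hq
    filter_upwards [eventually_gt_atTop (0 : ℝ)] with R hR
    exact SSS_rec hf hne hq hR
  have hpi := Real.pi_pos
  have hLS : LB (SSS hf) (1 / Real.pi) :=
    LB_S (by positivity) (Eventually.of_forall fun R => SSS_nonneg hf hne R) hrec hn
  have hUS := UB_SSS hf hne hC hb
  have hUn := UB_n (by positivity) hrec hLS hUS
  have := tendsto_of_LB_UB hn hUn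
  refine this.congr (fun R => ?_)
  rw [nn_eq hf]

end Pool.Agent.W190.BH
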